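import Pool.Agent.Lib.MP_b66790_nt.ModP
import Pool.Agent.Lib.MP_b66790_nt.ModM
import Pool.Agent.Lib.MP_b66790_nt.ModB
import Pool.Agent.Lib.MP_b66790_nt.ModD
import Pool.Agent.Lib.MP_b66790_nt.ModH
import Pool.Agent.Lib.MP_b66790_nt.ModG
import Pool.Agent.Lib.MP_b66790_nt.ModW

/-!
# Every element of the profinite Grothendieck-Teichmueller group commutes with squaring
-/

namespace Pool.Agent.Results.MP_b66790_nt.Squaring

open MPb66790

/-- For every element `F = (lam, f)` of the profinite Grothendieck-Teichmueller group, every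
`γ = γ₁ ∘ ⋯ ∘ γₙ` with `γᵢ` among `1 - z`, `1 / (1 - z)`, `z²` and every dessin `β` (an open
subgroup `H` of the free profinite group on `x, y`), `F (γ ∘ β)` and `γ ∘ F β` are the same
dessin. -/
theorem result (lam : ZHat) (f : FHat 2) (h : IsGT lam f) (w : List Move)
    (H : Subgroup (FHat 2)) (hH : IsOpen (H : Set (FHat 2))) :
    IsOpen (compose w H : Set (FHat 2)) ∧
    SameDessin (act lam f (compose w H)) (compose w (act lam f H)) := by
  obtain ⟨h1, g, h2⟩ := final (stK stH1 (stH3 stH2))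
    (stMain stB stC stD1 stD2 stD3 stG stW (stH3 stH2)) (stO stH2) h w H
  refine ⟨h1 hH, g⁻¹, fun x => ?_⟩
  rw [h2]
  constructor
  · rintro ⟨y, hy, rfl⟩
    have e : g⁻¹ * (MulAut.conj g).toMonoidHom y * g⁻¹⁻¹ = y := by
      show g⁻¹ * (g * y * g⁻¹) * g⁻¹⁻¹ = y
      group
    rw [e]
    exact hy
  · intro hx
    refine ⟨_, hx, ?_⟩
    show g * (g⁻¹ * x * g⁻¹⁻¹) * g⁻¹ = x
    group

end Pool.Agent.Results.MP_b66790_nt.Squaring
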